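import Pool.Agent.Helper19.HM.Goals

set_option autoImplicit false

namespace Pool.Agent.Helper52.HM

open Pool.Agent.Helper19.HM

theorem c_prj : S_PRJ := by
  intro n V _ _ H U hU
  obtain ⟨p0, hp0⟩ : ∃ p0 : Module.End ℂ V, (∀ v, p0 v ∈ U) ∧ ∀ v ∈ U, p0 v = v := by
    obtain ⟨q, hq⟩ := LinearMap.exists_leftInverse_of_injective U.subtype
      (LinearMap.ker_eq_bot.2 U.injective_subtype)
    refine ⟨U.subtype ∘ₗ q, fun v => (q v).2, fun v hv => ?_⟩
    have := LinearMap.congr_fun hq ⟨v, hv⟩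
    simp only [LinearMap.comp_apply, Submodule.subtype_apply, LinearMap.id_apply] at this ⊢
    rw [this]
  have hc : (Fintype.card (Equiv.Perm (Fin n)) : ℂ) ≠ 0 := by
    exact_mod_cast Fintype.card_ne_zero
  have hinv : ∀ (g : Equiv.Perm (Fin n)) (v : V), H.s g (H.s g⁻¹ v) = v := by
    intro g v
    rw [← Module.End.mul_apply, ← H.s_mul, mul_inv_cancel, H.s_one, Module.End.one_apply]
  refine ⟨(Fintype.card (Equiv.Perm (Fin n)) : ℂ)⁻¹ • ∑ g, H.s g * p0 * H.s g⁻¹, ?_, ?_, ?_⟩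
  · intro v
    rw [LinearMap.smul_apply, LinearMap.sum_apply]
    refine U.smul_mem _ (U.sum_mem fun g _ => ?_)
    rw [Module.End.mul_apply, Module.End.mul_apply]
    exact hU g _ (hp0.1 _)
  · intro v hv
    rw [LinearMap.smul_apply, LinearMap.sum_apply]
    have : ∀ g ∈ (Finset.univ : Finset (Equiv.Perm (Fin n))),
        (H.s g * p0 * H.s g⁻¹) v = v := by
      intro g _
      rw [Module.End.mul_apply, Module.End.mul_apply, hp0.2 _ (hU _ _ hv), hinv]
    rw [Finset.sum_congr rfl this, Finset.sum_const, Finset.card_univ, ← Nat.cast_smul_eq_nsmul ℂ,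
      smul_smul, inv_mul_cancel₀ hc, one_smul]
  · intro h
    rw [mul_smul_comm, smul_mul_assoc, Finset.mul_sum, Finset.sum_mul]
    congr 1
    refine Fintype.sum_equiv (Equiv.mulLeft h) _ _ fun g => ?_
    rw [Equiv.coe_mulLeft, H.s_mul, mul_inv_rev, H.s_mul]
    simp only [mul_assoc]
    congr 3
    rw [← H.s_mul, inv_mul_cancel, H.s_one, mul_one]

end Pool.Agent.Helper52.HM
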