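import Pool.Agent.Helper19.HM.Goals

set_option autoImplicit false

namespace Pool.Agent.Helper52.HM

open Pool.Agent.Helper19.HM MvPolynomial

theorem vdm_sum {n : ℕ} {S : Finset ℕ} (h : S.card = n) (hne : S ≠ Finset.range n) :
    ∑ x ∈ Finset.range n, x < ∑ x ∈ S, x := by
  have hcard : (S \ Finset.range n).card = (Finset.range n \ S).card :=
    Finset.card_sdiff_comm (by rw [h, Finset.card_range])
  have hnonempty : (Finset.range n \ S).Nonempty := by
    rw [Finset.sdiff_nonempty]
    intro hsub
    exact hne (Finset.eq_of_subset_of_card_le hsub (by rw [h, Finset.card_range])).symm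
  have h1 : (S \ Finset.range n).card * n ≤ ∑ x ∈ S \ Finset.range n, x := by
    have := Finset.card_nsmul_le_sum (S \ Finset.range n) (fun x => x) n fun x hx => by
      rw [Finset.mem_sdiff, Finset.mem_range, not_lt] at hx
      exact hx.2
    rwa [smul_eq_mul] at this
  have h2 : ∑ x ∈ Finset.range n \ S, x < (Finset.range n \ S).card * n := by
    have := Finset.sum_lt_sum_of_nonempty (s := Finset.range n \ S) (f := fun x => x)
      (g := fun _ => n) hnonempty fun x hx => by
      rw [Finset.mem_sdiff, Finset.mem_range] at hx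
      exact hx.1
    rwa [Finset.sum_const, smul_eq_mul] at this
  rw [← Finset.sum_inter_add_sum_sdiff S (Finset.range n) (fun x => x),
    ← Finset.sum_inter_add_sum_sdiff (Finset.range n) S (fun x => x), Finset.inter_comm]
  rw [hcard] at h1
  omega

theorem vdm_inj {n : ℕ} {f : MvPolynomial (Fin n) ℂ}
    (hf : ∀ g : Equiv.Perm (Fin n), rename g f = ((Equiv.Perm.sign g : ℤ) : ℂ) • f)
    (d : Fin n →₀ ℕ) (hd : coeff d f ≠ 0) : Function.Injective d := by
  intro i j hij
  by_contra hne
  apply hd
  have h1 := coeff_rename_mapDomain (Equiv.swap i j) (Equiv.injective _) f d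
  have h2 : Finsupp.mapDomain (Equiv.swap i j) d = d := by
    ext k
    rw [Finsupp.mapDomain_equiv_apply, Equiv.symm_swap]
    rcases eq_or_ne k i with rfl | hki
    · rw [Equiv.swap_apply_left, hij]
    · rcases eq_or_ne k j with rfl | hkj
      · rw [Equiv.swap_apply_right, hij]
      · rw [Equiv.swap_apply_of_ne_of_ne hki hkj]
  rw [h2, hf, Equiv.Perm.sign_swap hne, coeff_smul] at h1
  have h3 : -coeff d f = coeff d f := by
    simpa using h1
  have h4 : (2 : ℂ) * coeff d f = 0 := by linear_combination -h3
  simpa using h4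

theorem vdm_image {n : ℕ} {d : Fin n → ℕ} (hd : Function.Injective d) :
    n * (n - 1) ≤ 2 * ∑ i, d i ∧
      (2 * ∑ i, d i = n * (n - 1) → Finset.univ.image d = Finset.range n) := by
  have hcard : (Finset.univ.image d).card = n := by
    rw [Finset.card_image_of_injective _ hd, Finset.card_univ, Fintype.card_fin]
  have hs : ∑ x ∈ Finset.univ.image d, x = ∑ i, d i :=
    Finset.sum_image fun a _ b _ h => hd h
  have hr : 2 * ∑ x ∈ Finset.range n, x = n * (n - 1) := by
    rw [mul_comm, Finset.sum_range_id_mul_two]
  by_cases h : Finset.univ.image d = Finset.range n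
  · refine ⟨?_, fun _ => h⟩
    rw [← hr, ← hs, h]
  · have := vdm_sum hcard h
    rw [hs] at this
    constructor
    · omega
    · intro h'
      omega

theorem c_vdm : S_VDM := by
  intro n
  constructor
  · intro k f hk hf hlt
    ext d
    rw [coeff_zero]
    by_contra hd
    have hinj := vdm_inj hf d hd
    have h1 := (vdm_image hinj).1
    have h2 : d.degree = k := by
      by_contra hne
      exact hd (hk.coeff_eq_zero hne)
    rw [Finsupp.degree_eq_sum] at h2
    omega
  · refine ⟨lcoeff ℂ (Finsupp.equivFunOnFinite.symm fun i : Fin n => (i : ℕ)), ?_⟩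
    intro k f hk hf heq hL
    rw [lcoeff_apply] at hL
    ext d
    rw [coeff_zero]
    by_contra hd
    have hinj := vdm_inj hf d hd
    have h2 : d.degree = k := by
      by_contra hne
      exact hd (hk.coeff_eq_zero hne)
    rw [Finsupp.degree_eq_sum] at h2
    have h3 := (vdm_image hinj).2 (by rw [h2, heq])
    have h4 : ∀ i, d i < n := fun i => by
      rw [← Finset.mem_range, ← h3]
      exact Finset.mem_image_of_mem _ (Finset.mem_univ i)
    let g : Equiv.Perm (Fin n) := Equiv.ofBijective (fun i => (⟨d i, h4 i⟩ : Fin n))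
      (Finite.injective_iff_bijective.1 fun a b hab => hinj (by simpa using hab))
    have hg : ∀ i, ((g i : Fin n) : ℕ) = d i := fun i => rfl
    have h5 := coeff_rename_mapDomain g.symm (Equiv.injective _) f
      (Finsupp.equivFunOnFinite.symm fun i : Fin n => (i : ℕ))
    have h6 : Finsupp.mapDomain g.symm (Finsupp.equivFunOnFinite.symm fun i : Fin n => (i : ℕ))
        = d := by
      ext j
      rw [Finsupp.mapDomain_equiv_apply, Equiv.symm_symm, Finsupp.equivFunOnFinite_symm_apply_apply,
        hg]
    rw [h6, hf, hL, coeff_smul, smul_eq_mul] at h5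
    rcases mul_eq_zero.1 h5 with h7 | h7
    · have h8 : (Equiv.Perm.sign g.symm : ℤ) = 0 := by exact_mod_cast h7
      exact (Units.ne_zero (Equiv.Perm.sign g.symm)) h8
    · exact hd h7

end Pool.Agent.Helper52.HM
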